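import Mathlib
import Pool.Agent.H13.Braid2

set_option autoImplicit false
open Pool.Agent.H13.Braid

namespace Pool.Agent.Results.MP_260d59_co.IsoDim

def EmbedsIn {V : Type} (G : SimpleGraph V) (n : ℕ) : Prop :=
  ∃ f : V → Fin n → Bool, ∀ u v, (hammingDist (f u) (f v) : ℕ∞) = G.edist u v

theorem result (B W : Type) [Group W] (M : CoxeterMatrix B) (cs : CoxeterSystem M W)
    (_hS : SimplyLaced M) (hT : TriangleFree M) (α : List B) (hα : cs.IsReduced α) :
    ∃ D : ℕ, IsLeast {n | EmbedsIn (graph M α) n} D ∧ (graph M α).ediam = (D : ℕ∞) := by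
  obtain ⟨D, -, h2, h3⟩ := both_dims cs hT hα
  refine ⟨D, ⟨h3, ?_⟩, h2⟩
  rintro n ⟨f, hf⟩
  have : (graph M α).ediam ≤ n := SimpleGraph.ediam_le_of_edist_le fun u v => by
    rw [← hf]
    exact_mod_cast (hammingDist_le_card_fintype).trans (Fintype.card_fin n).le
  rw [h2] at this
  exact_mod_cast this

end Pool.Agent.Results.MP_260d59_co.IsoDim
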